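import Pool.Agent.helper86.ZD.SpecC

set_option autoImplicit false

open Complex MeasureTheory

namespace Pool.Agent.ZD

open Pool.Agent.helper84.DM Pool.Agent.helper78.ED Pool.Agent.DH

/-- The algebra of one application of the mean value theorem. -/
theorem CMA_alg (w L M σ R Nσ : ℝ) (k : ℕ) (hL : 0 < L) (hM : 0 < M)
    (hN : Nσ ^ (2 * k) = M ^ (2 * σ)) (h : w * (Nσ / L) ^ (2 * k) ≤ R) :
    w ≤ R * L ^ (2 * k) * M ^ (-(2 * σ)) := by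
  have h1 : (Nσ / L) ^ (2 * k) = M ^ (2 * σ) / L ^ (2 * k) := by rw [div_pow, hN]
  rw [h1] at h
  have hLp : 0 < L ^ (2 * k) := pow_pos hL _
  have hMp : 0 < M ^ (2 * σ) := Real.rpow_pos_of_pos hM _
  have h2 : w * M ^ (2 * σ) ≤ R * L ^ (2 * k) := by
    have h3 := mul_le_mul_of_nonneg_right h hLp.le
    have h4 : w * (M ^ (2 * σ) / L ^ (2 * k)) * L ^ (2 * k) = w * M ^ (2 * σ) := by
      field_simp
    linarith [h4 ▸ h3]
  rw [Real.rpow_neg hM.le]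
  have h5 : w * M ^ (2 * σ) * (M ^ (2 * σ))⁻¹ ≤ R * L ^ (2 * k) * (M ^ (2 * σ))⁻¹ :=
    mul_le_mul_of_nonneg_right h2 (inv_nonneg.2 hMp.le)
  have h6 : w * M ^ (2 * σ) * (M ^ (2 * σ))⁻¹ = w := by
    field_simp
  linarith [h6 ▸ h5]

/-- Powers of the logarithm. -/
theorem CMA_log (ε B : ℝ) (K k : ℕ) (hε : 0 < ε) (hB : 0 ≤ B) (hk : k ≤ K) (T : ℝ) (hT : 1 ≤ T) :
    (B * Real.log T) ^ (2 * k) ≤
      (1 + B * (8 * (K + 1) / ε)) ^ (2 * K) * T ^ (ε / 4) := by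
  obtain ⟨η, hη⟩ : ∃ η : ℝ, η = ε / (8 * (K + 1)) := ⟨_, rfl⟩
  have hK0 : (0 : ℝ) < 8 * (K + 1) := by positivity
  have hη0 : 0 < η := by rw [hη]; positivity
  have hηi : 1 / η = 8 * (K + 1) / ε := by
    rw [hη]; field_simp
  have hT0 : 0 < T := by linarith
  have hlog : Real.log T ≤ T ^ η / η := Real.log_le_rpow_div hT0.le hη0
  have hlog0 : 0 ≤ Real.log T := Real.log_nonneg hT
  have hTη : 1 ≤ T ^ η := Real.one_le_rpow hT hη0.le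
  have h1 : B * Real.log T ≤ (1 + B * (1 / η)) * T ^ η := by
    have h2 : B * Real.log T ≤ B * (T ^ η / η) := mul_le_mul_of_nonneg_left hlog hB
    have h3 : B * (T ^ η / η) = B * (1 / η) * T ^ η := by ring
    nlinarith [h2, h3, hTη]
  have h0 : 0 ≤ B * Real.log T := mul_nonneg hB hlog0
  have hD : 1 ≤ (1 + B * (1 / η)) * T ^ η := by
    have h4 : 1 ≤ 1 + B * (1 / η) := by
      have : 0 ≤ B * (1 / η) := by positivity
      linarith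
    calc (1 : ℝ) = 1 * 1 := by ring
      _ ≤ (1 + B * (1 / η)) * T ^ η := mul_le_mul h4 hTη (by norm_num) (by linarith)
  have h5 : (B * Real.log T) ^ (2 * k) ≤ ((1 + B * (1 / η)) * T ^ η) ^ (2 * k) :=
    pow_le_pow_left₀ h0 h1 _
  have h6 : ((1 + B * (1 / η)) * T ^ η) ^ (2 * k) ≤ ((1 + B * (1 / η)) * T ^ η) ^ (2 * K) :=
    pow_le_pow_right₀ hD (by omega)
  have h7 : (T ^ η) ^ (2 * K) ≤ T ^ (ε / 4) := by
    rw [← Real.rpow_natCast (T ^ η) (2 * K), ← Real.rpow_mul hT0.le]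
    apply Real.rpow_le_rpow_of_exponent_le hT
    rw [hη]
    push_cast
    have h8 : ε / (8 * ((K : ℝ) + 1)) * (2 * K) = ε / 4 * (K / (K + 1)) := by
      field_simp; ring
    rw [h8]
    have h9 : (K : ℝ) / (K + 1) ≤ 1 := by
      rw [div_le_one (by positivity)]; linarith
    nlinarith
  have h10 : ((1 + B * (1 / η)) * T ^ η) ^ (2 * K) ≤
      (1 + B * (1 / η)) ^ (2 * K) * T ^ (ε / 4) := by
    rw [mul_pow]
    apply mul_le_mul_of_nonneg_left h7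
    have : 0 ≤ B * (1 / η) := by positivity
    positivity
  rw [← hηi]
  exact h5.trans (h6.trans h10)

theorem CMA (h1 : MVK_stmt) (h2 : CPOW_stmt) (h3 : CMR_stmt) : CMA_stmt := by
  intro ε δ hε hδ hδ4
  obtain ⟨K, hK⟩ : ∃ K : ℕ, K = ⌊3 / δ⌋₊ := ⟨_, rfl⟩
  obtain ⟨κ, hκ⟩ : ∃ κ : ℝ, κ = min 1 (ε * δ / 24) := ⟨_, rfl⟩
  have hκ0 : 0 < κ := by rw [hκ]; exact lt_min one_pos (by positivity)
  have hκ1 : κ ≤ 1 := by rw [hκ]; exact min_le_left _ _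
  have hκ2 : κ ≤ ε * δ / 24 := by rw [hκ]; exact min_le_right _ _
  refine ⟨κ, hκ0, hκ1, ?_⟩
  intro C₁ hC₁
  have hmv : ∀ k : ℕ, ∃ C : ℝ, 0 < C ∧ (1 ≤ k →
      ∀ T : ℝ, 1 ≤ T → ∀ W : Finset ℝ, Sep 0 T W → ∀ (N : ℕ) (a : ℕ → ℂ) (A V : ℝ), 1 ≤ N →
      (N : ℝ) ≤ T → 0 ≤ V → (∀ n ∈ Finset.Ioc N (2 * N), ‖a n‖ ≤ A) →
      (∀ t ∈ W, V ≤ ‖DP N a t‖) →
      (W.card : ℝ) * V ^ (2 * k) ≤
        C * A ^ (2 * k) * T ^ (ε / 4) * ((T + (N : ℝ) ^ k) * (N : ℝ) ^ k)) := by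
    intro k
    rcases Nat.eq_zero_or_pos k with hk | hk
    · exact ⟨1, one_pos, fun h => absurd h (by omega)⟩
    · obtain ⟨C, hC, h⟩ := h1 (ε / 4) k (by positivity) hk
      exact ⟨C, hC, fun _ => h⟩
  choose c hc0 hc using hmv
  obtain ⟨CM, hCM⟩ : ∃ CM : ℝ, CM = 1 + ∑ k ∈ Finset.Icc 1 K, c k := ⟨_, rfl⟩
  have hCM0 : 0 < CM := by
    rw [hCM]
    have : 0 ≤ ∑ k ∈ Finset.Icc 1 K, c k := Finset.sum_nonneg fun i _ => (hc0 i).le
    linarith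
  have hcle : ∀ k ∈ Finset.Icc 1 K, c k ≤ CM := by
    intro k hk
    rw [hCM]
    have : c k ≤ ∑ k ∈ Finset.Icc 1 K, c k :=
      Finset.single_le_sum (f := c) (fun i _ => (hc0 i).le) hk
    linarith
  obtain ⟨T₁, hT₁⟩ := h2 δ hδ hδ4
  obtain ⟨B, hB⟩ : ∃ B : ℝ, B = 4 * C₁ ^ 2 := ⟨_, rfl⟩
  have hB0 : 0 ≤ B := by rw [hB]; positivity
  obtain ⟨E, hE⟩ : ∃ E : ℝ, E = (1 + B * (8 * (K + 1) / ε)) ^ (2 * K) := ⟨_, rfl⟩
  have hE0 : 0 < E := by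
    rw [hE]
    have : 0 ≤ B * (8 * ((K : ℝ) + 1) / ε) := by positivity
    positivity
  refine ⟨CM * E * 2, max T₁ 3, by positivity, ?_⟩
  intro T hT σ hσ1 hσ2 N hN1 hN2 a ha W hW hV
  have hT1 : T₁ ≤ T := le_trans (le_max_left _ _) hT
  have hT3 : 3 ≤ T := le_trans (le_max_right _ _) hT
  have hT0 : 0 < T := by linarith
  have hT1' : 1 ≤ T := by linarith
  have hlog : 0 < Real.log T := Real.log_pos (by linarith)
  obtain ⟨k, hk1, hk3, hkl, hku⟩ := hT₁ T hT1 N hN1 hN2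
  have hkK : k ≤ K := by rw [hK]; exact Nat.le_floor hk3
  have hNpos : 0 < (N : ℝ) := by
    have : 0 < T ^ δ := Real.rpow_pos_of_pos hT0 _
    linarith
  have hN1' : 1 ≤ N := by
    have : 0 < N := by exact_mod_cast hNpos
    omega
  have hNT : (N : ℝ) ≤ T := by
    refine hN2.trans ?_
    calc T ^ (13 / 34 : ℝ) ≤ T ^ (1 : ℝ) :=
          Real.rpow_le_rpow_of_exponent_le hT1' (by norm_num)
      _ = T := Real.rpow_one T
  obtain ⟨M, hM⟩ : ∃ M : ℝ, M = (N : ℝ) ^ k := ⟨_, rfl⟩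
  have hM0 : 0 < M := by rw [hM]; positivity
  have hL : 0 < 4 * C₁ * Real.log T := by positivity
  have hVnn : 0 ≤ (N : ℝ) ^ σ / (4 * C₁ * Real.log T) := by positivity
  have hmain := hc k hk1 T hT1' W hW N a (C₁ * T ^ κ) ((N : ℝ) ^ σ / (4 * C₁ * Real.log T))
    hN1' hNT hVnn ha hV
  rw [← hM] at hmain hkl hku
  have hNσ : ((N : ℝ) ^ σ) ^ (2 * k) = M ^ (2 * σ) := by
    rw [hM, ← Real.rpow_natCast ((N : ℝ) ^ σ) (2 * k), ← Real.rpow_mul hNpos.le,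
      ← Real.rpow_natCast (N : ℝ) k, ← Real.rpow_mul hNpos.le]
    congr 1
    push_cast
    ring
  have halg := CMA_alg _ _ M σ _ _ k hL hM0 hNσ hmain
  have hcmr := h3 T M σ hT1' hσ1 hσ2 hkl hku
  have hlg := CMA_log ε B K k hε hB0 hkK T hT1'
  rw [← hE] at hlg
  -- the power of `T ^ κ`
  have hTk : (T ^ κ) ^ (2 * k) ≤ T ^ (ε / 4) := by
    rw [← Real.rpow_natCast (T ^ κ) (2 * k), ← Real.rpow_mul hT0.le]
    apply Real.rpow_le_rpow_of_exponent_le hT1'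
    push_cast
    have h4 : (k : ℝ) * δ ≤ 3 := by
      rw [le_div_iff₀ hδ] at hk3
      exact hk3
    have h5 : κ * (2 * k) ≤ ε * δ / 24 * (2 * k) :=
      mul_le_mul_of_nonneg_right hκ2 (by positivity)
    nlinarith
  have hcomb : (C₁ * T ^ κ) ^ (2 * k) * (4 * C₁ * Real.log T) ^ (2 * k) =
      (B * Real.log T) ^ (2 * k) * (T ^ κ) ^ (2 * k) := by
    rw [← mul_pow, ← mul_pow, hB]
    congr 1
    ring
  have hTe0 : 0 < T ^ (ε / 4) := Real.rpow_pos_of_pos hT0 _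
  have hcomb2 : (C₁ * T ^ κ) ^ (2 * k) * (4 * C₁ * Real.log T) ^ (2 * k) ≤
      E * T ^ (ε / 4) * T ^ (ε / 4) := by
    rw [hcomb]
    exact mul_le_mul hlg hTk (by positivity) (by positivity)
  have hkI : k ∈ Finset.Icc 1 K := Finset.mem_Icc.2 ⟨hk1, hkK⟩
  have hckM : c k ≤ CM := hcle k hkI
  have hstep : (W.card : ℝ) ≤ c k * ((C₁ * T ^ κ) ^ (2 * k) * (4 * C₁ * Real.log T) ^ (2 * k)) *
      T ^ (ε / 4) * ((T + M) * M * M ^ (-(2 * σ))) := by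
    refine halg.trans (le_of_eq ?_)
    ring
  have hX0 : 0 ≤ (T + M) * M * M ^ (-(2 * σ)) := by positivity
  have hRp : 0 < T ^ (39 / 17 * (1 - σ)) := Real.rpow_pos_of_pos hT0 _
  have h7 : c k * ((C₁ * T ^ κ) ^ (2 * k) * (4 * C₁ * Real.log T) ^ (2 * k)) ≤
      CM * (E * T ^ (ε / 4) * T ^ (ε / 4)) :=
    mul_le_mul hckM hcomb2 (by positivity) hCM0.le
  have h8 : c k * ((C₁ * T ^ κ) ^ (2 * k) * (4 * C₁ * Real.log T) ^ (2 * k)) * T ^ (ε / 4) *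
      ((T + M) * M * M ^ (-(2 * σ))) ≤
      CM * (E * T ^ (ε / 4) * T ^ (ε / 4)) * T ^ (ε / 4) * (2 * T ^ (39 / 17 * (1 - σ))) :=
    mul_le_mul (mul_le_mul_of_nonneg_right h7 hTe0.le) hcmr hX0 (by positivity)
  have h9 : CM * (E * T ^ (ε / 4) * T ^ (ε / 4)) * T ^ (ε / 4) * (2 * T ^ (39 / 17 * (1 - σ))) =
      CM * E * 2 * (T ^ (39 / 17 * (1 - σ)) * (T ^ (ε / 4) * T ^ (ε / 4) * T ^ (ε / 4))) := by
    ring
  have h10 : T ^ (ε / 4) * T ^ (ε / 4) * T ^ (ε / 4) ≤ T ^ ε := by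
    rw [← Real.rpow_add hT0, ← Real.rpow_add hT0]
    exact Real.rpow_le_rpow_of_exponent_le hT1' (by linarith)
  have h11 : T ^ (39 / 17 * (1 - σ) + ε) = T ^ (39 / 17 * (1 - σ)) * T ^ ε :=
    Real.rpow_add hT0 _ _
  rw [h11]
  refine hstep.trans (h8.trans ?_)
  rw [h9]
  exact mul_le_mul_of_nonneg_left (mul_le_mul_of_nonneg_left h10 hRp.le) (by positivity)

end Pool.Agent.ZD
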